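import Pool.Agent.Helper86.SG.Defs

/-! Package CNT. -/

open Finset

namespace Pool.Agent.Helper82.SG

open SJ (supp IsV dot fib)

variable {n : ℕ}

/-- the sign vector over `S` which differs from `c` at `D` -/
def vv (S : Finset (Fin n)) (c : Fin n → ℤ) (D : Finset (Fin n)) : Fin n → ℤ :=
  fun i => if i ∈ S then (if i ∈ D then - c i else c i) else 0

theorem vv_ne (S : Finset (Fin n)) {c : Fin n → ℤ} (hc : ∀ i, c i = 1 ∨ c i = -1)
    (D : Finset (Fin n)) {i : Fin n} (hi : i ∈ S) : vv S c D i ≠ c i ↔ i ∈ D := by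
  unfold vv
  rw [if_pos hi]
  by_cases h : i ∈ D
  · rw [if_pos h]
    have := hc i
    refine iff_of_true ?_ h
    omega
  · rw [if_neg h]
    exact iff_of_false (fun h' => h' rfl) h

theorem vv_supp (S : Finset (Fin n)) {c : Fin n → ℤ} (hc : ∀ i, c i = 1 ∨ c i = -1)
    (D : Finset (Fin n)) : supp (vv S c D) = S := by
  ext i
  unfold supp
  rw [mem_filter]
  unfold vv
  have := hc i
  by_cases hi : i ∈ S
  · rw [if_pos hi]
    refine iff_of_true ⟨mem_univ _, ?_⟩ hi
    split_ifs <;> omega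
  · rw [if_neg hi]
    exact iff_of_false (fun h => h.2 rfl) hi

theorem vv_isV (S : Finset (Fin n)) {c : Fin n → ℤ} (hc : ∀ i, c i = 1 ∨ c i = -1)
    (D : Finset (Fin n)) : IsV n #S (vv S c D) := by
  refine ⟨fun i => ?_, by rw [vv_supp S hc]⟩
  have := hc i
  unfold vv
  split_ifs <;> omega

theorem vv_filter (S : Finset (Fin n)) {c : Fin n → ℤ} (hc : ∀ i, c i = 1 ∨ c i = -1)
    (D X : Finset (Fin n)) (hX : X ⊆ S) : X.filter (fun i => vv S c D i ≠ c i) = X ∩ D := by
  ext i
  rw [mem_filter, mem_inter]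
  constructor
  · rintro ⟨h1, h2⟩
    exact ⟨h1, (vv_ne S hc D (hX h1)).1 h2⟩
  · rintro ⟨h1, h2⟩
    exact ⟨h1, (vv_ne S hc D (hX h1)).2 h2⟩

theorem eq_vv (S : Finset (Fin n)) {c : Fin n → ℤ} (hc : ∀ i, c i = 1 ∨ c i = -1)
    (v : Fin n → ℤ) (hv : ∀ i, v i = -1 ∨ v i = 0 ∨ v i = 1) (hS : supp v = S)
    (D : Finset (Fin n)) (hD : ∀ i ∈ S, i ∈ D ↔ v i ≠ c i) : vv S c D = v := by
  funext i
  unfold vv
  have h1 := hc i
  have h2 := hv i
  have h3 : i ∈ S ↔ v i ≠ 0 := by
    rw [← hS]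
    unfold supp
    rw [mem_filter]
    exact ⟨fun h => h.2, fun h => ⟨mem_univ _, h⟩⟩
  by_cases hi : i ∈ S
  · rw [if_pos hi]
    have h4 := h3.1 hi
    by_cases h : i ∈ D
    · rw [if_pos h]
      have h5 := (hD i hi).1 h
      omega
    · rw [if_neg h]
      have h5 : v i = c i := by
        by_contra h6
        exact h ((hD i hi).2 h6)
      exact h5.symm
  · rw [if_neg hi]
    by_contra h4
    exact hi (h3.2 (fun h => h4 h.symm))

theorem card_le_d (X : Finset (Fin n)) (d : ℕ) :
    #(X.powerset.filter (fun B => #B ≤ d)) = _root_.SG.BB #X d := by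
  classical
  unfold _root_.SG.BB
  rw [Finset.card_eq_sum_card_fiberwise (f := fun B : Finset (Fin n) => #B)
    (t := range (d + 1))]
  · refine Finset.sum_congr rfl fun i hi => ?_
    have hi' : i ≤ d := Nat.lt_succ_iff.1 (mem_range.1 hi)
    rw [← card_powersetCard]
    congr 1
    ext B
    rw [mem_filter, mem_filter, mem_powerset, mem_powersetCard]
    constructor
    · rintro ⟨⟨h1, _⟩, h2⟩
      exact ⟨h1, h2⟩
    · rintro ⟨h1, h2⟩
      exact ⟨⟨h1, by rw [h2]; exact hi'⟩, h2⟩
  · intro B hB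
    have := (mem_filter.1 (Finset.mem_coe.1 hB)).2
    exact Finset.mem_coe.2 (mem_range.2 (Nat.lt_succ_of_le this))

/-- Package CNT. -/
theorem cnt : _root_.SG.CNTStm := by
  classical
  intro n d S P c hc hPS
  have hinj : ∀ A B A' B' : Finset (Fin n), A ⊆ P → B ⊆ S \ P → A' ⊆ P → B' ⊆ S \ P →
      vv S c (A ∪ B) = vv S c (A' ∪ B') → A = A' ∧ B = B' := by
    intro A B A' B' hA hB hA' hB' h
    have h1 : ∀ i ∈ S, i ∈ A ∪ B ↔ i ∈ A' ∪ B' := by
      intro i hi
      rw [← vv_ne S hc (A ∪ B) hi, ← vv_ne S hc (A' ∪ B') hi, h]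
    constructor
    · ext i
      constructor
      · intro hi
        rcases mem_union.1 ((h1 i (hPS (hA hi))).1 (mem_union_left _ hi)) with h2 | h2
        · exact h2
        · exact absurd (hA hi) (mem_sdiff.1 (hB' h2)).2
      · intro hi
        rcases mem_union.1 ((h1 i (hPS (hA' hi))).2 (mem_union_left _ hi)) with h2 | h2
        · exact h2
        · exact absurd (hA' hi) (mem_sdiff.1 (hB h2)).2
    · ext i
      constructor
      · intro hi
        rcases mem_union.1 ((h1 i (mem_sdiff.1 (hB hi)).1).1 (mem_union_right _ hi)) with h2 | h2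
        · exact absurd (hA' h2) (mem_sdiff.1 (hB hi)).2
        · exact h2
      · intro hi
        rcases mem_union.1 ((h1 i (mem_sdiff.1 (hB' hi)).1).2 (mem_union_right _ hi)) with h2 | h2
        · exact absurd (hA h2) (mem_sdiff.1 (hB' hi)).2
        · exact h2
  refine ⟨(P.powerset ×ˢ ((S \ P).powerset.filter (fun B => #B ≤ d))).image
    (fun x => vv S c (x.1 ∪ x.2)), ?_, ?_⟩
  · intro v
    rw [mem_image]
    constructor
    · rintro ⟨⟨A, B⟩, hx, rfl⟩
      rw [mem_product, mem_powerset, mem_filter, mem_powerset] at hx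
      obtain ⟨hA, hB, hd⟩ := hx
      refine ⟨vv_isV S hc _, vv_supp S hc _, ?_⟩
      rw [vv_filter S hc _ _ sdiff_subset]
      refine le_trans (card_le_card ?_) hd
      intro i hi
      rw [mem_inter, mem_union] at hi
      rcases hi.2 with h | h
      · exact absurd (hA h) (mem_sdiff.1 hi.1).2
      · exact h
    · rintro ⟨hv, hS, hd⟩
      refine ⟨(P.filter (fun i => v i ≠ c i), (S \ P).filter (fun i => v i ≠ c i)), ?_, ?_⟩
      · rw [mem_product, mem_powerset, mem_filter, mem_powerset]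
        exact ⟨filter_subset _ _, filter_subset _ _, hd⟩
      · refine eq_vv S hc v hv.1 hS _ fun i hi => ?_
        rw [mem_union, mem_filter, mem_filter, mem_sdiff]
        constructor
        · rintro (h | h)
          · exact h.2
          · exact h.2
        · intro h
          by_cases hp : i ∈ P
          · exact Or.inl ⟨hp, h⟩
          · exact Or.inr ⟨⟨hi, hp⟩, h⟩
  · rw [card_image_of_injOn, card_product, card_powerset, card_le_d]
    rintro ⟨A, B⟩ hx ⟨A', B'⟩ hx' h
    rw [mem_coe, mem_product, mem_powerset, mem_filter, mem_powerset] at hx hx'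
    obtain ⟨h1, h2⟩ := hinj A B A' B' hx.1 hx.2.1 hx'.1 hx'.2.1 h
    exact Prod.ext h1 h2

end Pool.Agent.Helper82.SG
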